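import Pool.Agent.J6H49.SY.Defs2
import Pool.Agent.J6H94.TSp.Expand

/-!
# Module SY-EXP: random systems of equations expand
-/

set_option autoImplicit false

open Finset

namespace Pool.Agent.J6H3.SY

open Pool.Agent.J6H94.TSp (choose_mul_pow_le sum_lt_of_pow)

/-- the variables in the equations of `S` -/
def nb {n q : ℕ} (f : Fin q → Fin 3 → Fin n) (S : Finset (Fin q)) : Finset (Fin n × Fin 3) :=
  (S ×ˢ (univ : Finset (Fin 3))).image fun p => (f p.1 p.2, p.2)

/-- the variables in an odd number of equations of `S` -/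
def od {n q : ℕ} (f : Fin q → Fin 3 → Fin n) (S : Finset (Fin q)) : Finset (Fin n × Fin 3) :=
  univ.filter fun e : Fin n × Fin 3 => Odd (S.filter fun v => f v e.2 = e.1).card

theorem two_mul_nb {n q : ℕ} (f : Fin q → Fin 3 → Fin n) (S : Finset (Fin q)) :
    2 * (nb f S).card ≤ 3 * S.card + (od f S).card := by
  set E := S ×ˢ (univ : Finset (Fin 3)) with hE
  have h1 : E.card = ∑ e ∈ nb f S, (E.filter fun p => (f p.1 p.2, p.2) = e).card :=
    card_eq_sum_card_image (fun p : Fin q × Fin 3 => (f p.1 p.2, p.2)) E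
  have h2 : E.card = 3 * S.card := by
    rw [hE, card_product, card_univ, Fintype.card_fin, mul_comm]
  have h3 : ((nb f S).filter fun e => e ∈ od f S).card ≤ (od f S).card :=
    card_le_card fun j hj => (mem_filter.mp hj).2
  have h4 : 2 * (nb f S).card ≤ ∑ e ∈ nb f S,
      ((E.filter fun p => (f p.1 p.2, p.2) = e).card + if e ∈ od f S then 1 else 0) := by
    rw [mul_comm, ← smul_eq_mul, ← sum_const]
    refine sum_le_sum fun e he => ?_
    have h5 : 0 < (E.filter fun p => (f p.1 p.2, p.2) = e).card := by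
      obtain ⟨p, hp, hpj⟩ := mem_image.mp he
      exact card_pos.mpr ⟨p, mem_filter.mpr ⟨hp, hpj⟩⟩
    by_cases h6 : e ∈ od f S
    · rw [if_pos h6]; omega
    · rw [if_neg h6]
      have h7 : (E.filter fun p => (f p.1 p.2, p.2) = e).card =
          (S.filter fun v => f v e.2 = e.1).card := by
        refine card_nbij' (fun p => p.1) (fun v => (v, e.2)) ?_ ?_ ?_ ?_
        · intro p hp
          simp only [mem_coe, mem_filter, hE, mem_product, mem_univ, and_true] at hp ⊢
          obtain ⟨h8, h9⟩ := hp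
          rw [← h9]
          exact ⟨h8, rfl⟩
        · intro v hv
          simp only [mem_coe, mem_filter, hE, mem_product, mem_univ, and_true] at hv ⊢
          exact ⟨hv.1, Prod.ext hv.2 rfl⟩
        · intro p hp
          simp only [mem_coe, mem_filter, hE, mem_product, mem_univ, and_true] at hp
          obtain ⟨h8, h9⟩ := hp
          rw [← h9]
        · intro v hv
          rfl
      have h8 : (S.filter fun v => f v e.2 = e.1).card ≠ 1 := by
        intro h9
        apply h6
        refine mem_filter.mpr ⟨mem_univ _, ?_⟩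
        rw [h9]
        exact odd_one
      rw [h7] at h5 ⊢
      omega
  rw [sum_add_distrib, ← h1, h2, ← card_filter] at h4
  omega

theorem card_into {n q : ℕ} (S : Finset (Fin q)) (W : Finset (Fin n × Fin 3)) :
    (univ.filter fun f : Fin q → Fin 3 → Fin n => ∀ v ∈ S, ∀ t, (f v t, t) ∈ W).card ≤
      W.card ^ (3 * S.card) * n ^ (3 * (q - S.card)) := by
  classical
  have h1 : (univ.filter fun f : Fin q → Fin 3 → Fin n => ∀ v ∈ S, ∀ t, (f v t, t) ∈ W)
      = Fintype.piFinset fun v : Fin q => Fintype.piFinset fun t : Fin 3 =>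
        if v ∈ S then (univ.filter fun x : Fin n => (x, t) ∈ W) else univ := by
    ext f
    rw [mem_filter, Fintype.mem_piFinset]
    constructor
    · rintro ⟨-, h⟩ v
      rw [Fintype.mem_piFinset]
      intro t
      split_ifs with hv
      · exact mem_filter.mpr ⟨mem_univ _, h v hv t⟩
      · exact mem_univ _
    · intro h
      refine ⟨mem_univ _, fun v hv t => ?_⟩
      have := Fintype.mem_piFinset.mp (h v) t
      rw [if_pos hv] at this
      exact (mem_filter.mp this).2
  rw [h1, Fintype.card_piFinset]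
  have h2 : ∀ v : Fin q, (Fintype.piFinset fun t : Fin 3 =>
      if v ∈ S then (univ.filter fun x : Fin n => (x, t) ∈ W) else univ).card
      ≤ if v ∈ S then W.card ^ 3 else n ^ 3 := by
    intro v
    rw [Fintype.card_piFinset]
    split_ifs with hv
    · calc ∏ t : Fin 3, (univ.filter fun x : Fin n => (x, t) ∈ W).card ≤ ∏ _t : Fin 3, W.card := by
            refine prod_le_prod' fun t _ => ?_
            refine card_le_card_of_injOn (fun x => (x, t)) (fun x hx => (mem_filter.mp hx).2) ?_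
            intro x _ y _ hxy
            exact (Prod.ext_iff.1 hxy).1
        _ = W.card ^ 3 := by simp
    · simp
  refine (prod_le_prod' fun v _ => h2 v).trans (le_of_eq ?_)
  rw [prod_ite, prod_const, prod_const]
  have h3 : (univ.filter fun x => x ∈ S) = S := by ext; simp
  have h4 : (univ.filter fun x => x ∉ S).card = q - S.card := by
    have : (univ.filter fun x => x ∉ S) = Sᶜ := by ext; simp
    rw [this, card_compl, Fintype.card_fin]
  rw [h3, h4, ← pow_mul, ← pow_mul]

/-- the main estimate -/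
theorem est {C n k w M : ℕ} (hk : 1 ≤ k) (hw : 8 * w ≤ 13 * k) (hM : M = 7776 * C) (hC : 1 ≤ C)
    (hn : M ^ 3 * k ≤ n) :
    (C * n).choose k * ((3 * n).choose w * w ^ (3 * k)) * 4 ^ k ≤ n ^ (3 * k) := by
  have hk0 : 0 < k ^ k := pow_pos (by omega) k
  refine Nat.le_of_mul_le_mul_left ?_ hk0
  have e1 : w ^ (3 * k) = w ^ w * w ^ (3 * k - w) := by
    rw [← pow_add]; congr 1; omega
  have e2 := choose_mul_pow_le (C * n) k
  have e3 := choose_mul_pow_le (3 * n) w
  have e4 : w ^ (3 * k - w) ≤ (2 * k) ^ (3 * k - w) := Nat.pow_le_pow_left (by omega) _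
  have e5 : 9 ^ w ≤ 9 ^ (2 * k) := Nat.pow_le_pow_right (by norm_num) (by omega)
  have e6 : 2 ^ (3 * k - w) ≤ 2 ^ (3 * k) := Nat.pow_le_pow_right (by norm_num) (by omega)
  have hM1 : 1 ≤ M := by omega
  have e7 : M ^ k * k ^ (2 * k - w) ≤ n ^ (2 * k - w) := by
    calc M ^ k * k ^ (2 * k - w) ≤ M ^ (3 * (2 * k - w)) * k ^ (2 * k - w) :=
          Nat.mul_le_mul_right _ (Nat.pow_le_pow_right hM1 (by omega))
      _ = (M ^ 3 * k) ^ (2 * k - w) := by rw [mul_pow, ← pow_mul]
      _ ≤ n ^ (2 * k - w) := Nat.pow_le_pow_left hn _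
  calc k ^ k * ((C * n).choose k * ((3 * n).choose w * w ^ (3 * k)) * 4 ^ k)
      = ((C * n).choose k * k ^ k) * ((3 * n).choose w * w ^ w) * w ^ (3 * k - w) * 4 ^ k := by
        rw [e1]; ring
    _ ≤ (3 * (C * n)) ^ k * (3 * (3 * n)) ^ w * (2 * k) ^ (3 * k - w) * 4 ^ k := by gcongr
    _ = (12 * C) ^ k * 9 ^ w * 2 ^ (3 * k - w) * (n ^ (k + w) * k ^ (3 * k - w)) := by
        have h1 : 3 * (3 * n) = 9 * n := by ring
        have h2 : (12 * C) ^ k = 3 ^ k * C ^ k * 4 ^ k := by
          rw [← mul_pow, ← mul_pow]; congr 1; ring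
        rw [h1, h2, mul_pow, mul_pow, mul_pow 9 n, mul_pow 2 k, pow_add]
        ring
    _ ≤ (12 * C) ^ k * 9 ^ (2 * k) * 2 ^ (3 * k) * (n ^ (k + w) * k ^ (3 * k - w)) := by gcongr
    _ = M ^ k * (n ^ (k + w) * k ^ (3 * k - w)) := by
        have h1 : (9 : ℕ) ^ (2 * k) = 81 ^ k := by rw [pow_mul]; norm_num
        have h2 : (2 : ℕ) ^ (3 * k) = 8 ^ k := by rw [pow_mul]; norm_num
        have h3 : M ^ k = (12 * C) ^ k * 81 ^ k * 8 ^ k := by
          rw [← mul_pow, ← mul_pow, hM]; congr 1; ring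
        rw [h1, h2, h3]
    _ = k ^ k * ((M ^ k * k ^ (2 * k - w)) * n ^ (k + w)) := by
        have h1 : k ^ (3 * k - w) = k ^ k * k ^ (2 * k - w) := by
          rw [← pow_add]; congr 1; omega
        rw [h1]; ring
    _ ≤ k ^ k * (n ^ (2 * k - w) * n ^ (k + w)) := by gcongr
    _ = k ^ k * n ^ (3 * k) := by
        rw [← pow_add]
        congr 2
        omega

/-- **SY-EXP** -/
theorem main : Pool.Agent.J6H49.SY.S_EXP := by
  classical
  intro C n hC hn
  by_contra hcon
  push Not at hcon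
  obtain ⟨M, hM⟩ : ∃ M, M = 7776 * C := ⟨_, rfl⟩
  rw [← hM] at hcon
  set r := n / M ^ 3 with hr
  have hM1 : 1 ≤ M := by omega
  have hM3 : 1 ≤ M ^ 3 := Nat.one_le_pow _ _ hM1
  have hrn : M ^ 3 * r ≤ n := Nat.mul_div_le n (M ^ 3)
  have hrn' : r ≤ n := Nat.div_le_self _ _
  have hnC : n ≤ C * n := Nat.le_mul_of_pos_left _ hC
  set bad : ℕ → Finset (Fin (C * n) → Fin 3 → Fin n) := fun k =>
    (powersetCard k (univ : Finset (Fin (C * n)))).biUnion fun S =>
      (powersetCard (13 * k / 8) (univ : Finset (Fin n × Fin 3))).biUnion fun W =>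
        univ.filter fun f : Fin (C * n) → Fin 3 → Fin n => ∀ v ∈ S, ∀ t, (f v t, t) ∈ W with hbad
  have hcover : (univ : Finset (Fin (C * n) → Fin 3 → Fin n)) ⊆ (Icc 1 r).biUnion bad := by
    intro f _
    obtain ⟨S, hS, hlt⟩ := hcon f
    have hlt' : 4 * (od f S).card < S.card := hlt
    have hS0 : 0 < S.card := by omega
    refine mem_biUnion.mpr ⟨S.card, mem_Icc.mpr ⟨hS0, hS⟩, ?_⟩
    rw [hbad]
    refine mem_biUnion.mpr ⟨S, mem_powersetCard.mpr ⟨subset_univ _, rfl⟩, ?_⟩
    have h2 := two_mul_nb f S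
    have h3 : (nb f S).card ≤ 13 * S.card / 8 := by omega
    have h5 : 13 * S.card / 8 ≤ (univ : Finset (Fin n × Fin 3)).card := by
      rw [card_univ, Fintype.card_prod, Fintype.card_fin, Fintype.card_fin]
      omega
    obtain ⟨W, hIW, -, hW⟩ := exists_subsuperset_card_eq (subset_univ (nb f S)) h3 h5
    refine mem_biUnion.mpr ⟨W, mem_powersetCard.mpr ⟨subset_univ _, hW⟩, ?_⟩
    refine mem_filter.mpr ⟨mem_univ _, fun v hv t => hIW ?_⟩
    exact mem_image.mpr ⟨(v, t), mem_product.mpr ⟨hv, mem_univ _⟩, rfl⟩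
  have hbadcard : ∀ k, (bad k).card ≤ (C * n).choose k * ((3 * n).choose (13 * k / 8) *
      ((13 * k / 8) ^ (3 * k) * n ^ (3 * (C * n - k)))) := by
    intro k
    rw [hbad]
    refine card_biUnion_le.trans ?_
    refine (sum_le_card_nsmul _ _ ((3 * n).choose (13 * k / 8) *
      ((13 * k / 8) ^ (3 * k) * n ^ (3 * (C * n - k)))) ?_).trans ?_
    · intro S hS
      refine card_biUnion_le.trans ?_
      refine (sum_le_card_nsmul _ _
        ((13 * k / 8) ^ (3 * k) * n ^ (3 * (C * n - k))) ?_).trans ?_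
      · intro W hW
        have h1 := card_into S W
        rw [(mem_powersetCard.mp hS).2, (mem_powersetCard.mp hW).2] at h1
        exact h1
      · rw [card_powersetCard, card_univ, smul_eq_mul, Fintype.card_prod, Fintype.card_fin,
          Fintype.card_fin, mul_comm n 3]
    · rw [card_powersetCard, card_univ, smul_eq_mul, Fintype.card_fin]
  have hterm : ∀ k ∈ Icc 1 r, (bad k).card * 4 ^ k ≤ n ^ (3 * (C * n)) := by
    intro k hk
    rw [mem_Icc] at hk
    have h1 : M ^ 3 * k ≤ n := (Nat.mul_le_mul_left _ hk.2).trans hrn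
    have h2 := est (C := C) (n := n) (k := k) (w := 13 * k / 8) hk.1 (Nat.mul_div_le _ _) hM hC h1
    have h3 : n ^ (3 * (C * n)) = n ^ (3 * k) * n ^ (3 * (C * n - k)) := by
      rw [← pow_add]
      congr 1
      omega
    calc (bad k).card * 4 ^ k ≤ ((C * n).choose k * ((3 * n).choose (13 * k / 8) *
          ((13 * k / 8) ^ (3 * k) * n ^ (3 * (C * n - k))))) * 4 ^ k :=
          Nat.mul_le_mul_right _ (hbadcard k)
      _ = ((C * n).choose k * ((3 * n).choose (13 * k / 8) * (13 * k / 8) ^ (3 * k)) * 4 ^ k) *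
          n ^ (3 * (C * n - k)) := by ring
      _ ≤ n ^ (3 * k) * n ^ (3 * (C * n - k)) := Nat.mul_le_mul_right _ h2
      _ = n ^ (3 * (C * n)) := h3.symm
  have h1 : (univ : Finset (Fin (C * n) → Fin 3 → Fin n)).card = n ^ (3 * (C * n)) := by
    rw [card_univ, Fintype.card_fun, Fintype.card_fun, Fintype.card_fin, Fintype.card_fin,
      Fintype.card_fin, ← pow_mul]
  have h2 : (univ : Finset (Fin (C * n) → Fin 3 → Fin n)).card ≤ ∑ k ∈ Icc 1 r, (bad k).card :=
    (card_le_card hcover).trans card_biUnion_le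
  have h3 := sum_lt_of_pow (pow_pos (show 0 < n by omega) (3 * (C * n))) hterm
  omega

end Pool.Agent.J6H3.SY
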